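import Pool.Agent.Lib.MP_0f5321_co.Defs

/-!
Basic facts on placed polyominoes and congruences.
-/

namespace Pool.Agent.Lib.MP_0f5321_co

theorem abs_of_sq_eq_one {x : ℤ} (h : x ^ 2 = 1) : |x| = 1 := by
  have h' : (x - 1) * (x + 1) = 0 := by linarith [h, show (x - 1) * (x + 1) = x ^ 2 - 1 by ring]
  rcases mul_eq_zero.1 h' with h | h
  · rw [sub_eq_zero.1 h]; rfl
  · rw [eq_neg_of_add_eq_zero_left h]; rfl

theorem adj_iff (u v : Cell) : board.Adj u v ↔ (u.1 - v.1) ^ 2 + (u.2 - v.2) ^ 2 = 1 := by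
  constructor
  · rintro (⟨h1, h2⟩ | ⟨h1, h2⟩)
    · rw [h1, sub_self, ← sq_abs (u.2 - v.2), h2]; norm_num
    · rw [h1, sub_self, ← sq_abs (u.1 - v.1), h2]; norm_num
  · intro h
    have h1 : 0 ≤ (u.1 - v.1) ^ 2 := sq_nonneg _
    have h2 : 0 ≤ (u.2 - v.2) ^ 2 := sq_nonneg _
    have h3 : (u.1 - v.1) ^ 2 = 0 ∨ (u.1 - v.1) ^ 2 = 1 := by omega
    rcases h3 with h3 | h3
    · left
      have h4 : (u.2 - v.2) ^ 2 = 1 := by omega
      refine ⟨sub_eq_zero.1 (pow_eq_zero_iff (two_ne_zero) |>.1 h3), ?_⟩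
      exact abs_of_sq_eq_one h4
    · right
      have h4 : (u.2 - v.2) ^ 2 = 0 := by omega
      refine ⟨sub_eq_zero.1 (pow_eq_zero_iff (two_ne_zero) |>.1 h4), ?_⟩
      exact abs_of_sq_eq_one h3

theorem adj_congr {g : Cell ≃ Cell} (hg : IsCongruence g) (u v : Cell) :
    board.Adj (g u) (g v) ↔ board.Adj u v := by
  rw [adj_iff, adj_iff, hg]

/-- The image of a placed polyomino under a congruence. -/
def Placed.map (P : Placed) (g : Cell ≃ Cell) (hg : IsCongruence g) : Placed where
  cells := g '' P.cells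
  connected := by
    have e : board.induce P.cells ≃g board.induce (g '' P.cells) :=
      { toEquiv := g.image P.cells
        map_rel_iff' := by
          intro a b
          simp only [SimpleGraph.comap_adj, Function.Embedding.subtype_apply]
          exact adj_congr hg a.1 b.1 }
    exact e.connected_iff.1 P.connected

theorem shape_map (P : Placed) (g : Cell ≃ Cell) (hg : IsCongruence g) :
    shape (P.map g hg) = shape P := by
  refine Quotient.sound (Setoid.symm ?_)
  exact ⟨g, hg, rfl⟩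

/-- Induction along a placed polyomino. -/
theorem Placed.induct (P : Placed) (Q : Cell → Prop) (u : Cell) (hu : u ∈ P.cells) (h0 : Q u)
    (hstep : ∀ v ∈ P.cells, ∀ w ∈ P.cells, board.Adj v w → Q v → Q w) :
    ∀ v ∈ P.cells, Q v := by
  intro v hv
  obtain ⟨p⟩ := P.connected.preconnected ⟨u, hu⟩ ⟨v, hv⟩
  have key : ∀ (a b : P.cells), (board.induce P.cells).Walk a b → Q a → Q b := by
    intro a b p
    induction p with
    | nil => exact id
    | cons h _ ih =>
      intro ha
      refine ih (hstep _ (Subtype.coe_prop _) _ (Subtype.coe_prop _) ?_ ha)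
      simpa using h
  exact key _ _ p h0

/-- Translation by a vector. -/
theorem isCongruence_addLeft (c : Cell) : IsCongruence (Equiv.addLeft c) := by
  intro u v
  simp

/-- A copy of the set of cells `C` is an element of `F`. -/
def InF (F : Set Polyomino) (C : Set Cell) : Prop :=
  ∃ P : Placed, shape P ∈ F ∧ ∃ g : Cell ≃ Cell, IsCongruence g ∧ g '' P.cells = C

/-- A copy of an element of `F` lies in `C`. -/
def SubF (F : Set Polyomino) (C : Set Cell) : Prop :=
  ∃ P : Placed, shape P ∈ F ∧ ∃ g : Cell ≃ Cell, IsCongruence g ∧ g '' P.cells ⊆ C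

theorem IsCongruence.trans {g g' : Cell ≃ Cell} (hg : IsCongruence g) (hg' : IsCongruence g') :
    IsCongruence (g.trans g') := by
  intro u v
  simp only [Equiv.trans_apply]
  rw [hg', hg]

theorem IsCongruence.symm {g : Cell ≃ Cell} (hg : IsCongruence g) : IsCongruence g.symm := by
  intro u v
  have := hg (g.symm u) (g.symm v)
  simp only [Equiv.apply_symm_apply] at this
  exact this.symm

theorem InF.subF {F : Set Polyomino} {C : Set Cell} (h : InF F C) : SubF F C := by
  obtain ⟨P, hP, g, hg, h⟩ := h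
  exact ⟨P, hP, g, hg, h.le⟩

theorem SubF.image {F : Set Polyomino} {C D : Set Cell} (h : SubF F C) (g : Cell ≃ Cell)
    (hg : IsCongruence g) (hD : g '' C ⊆ D) : SubF F D := by
  obtain ⟨P, hP, g', hg', h⟩ := h
  refine ⟨P, hP, g'.trans g, hg'.trans hg, ?_⟩
  refine subset_trans ?_ hD
  rintro _ ⟨x, hx, rfl⟩
  exact ⟨g' x, h ⟨x, hx, rfl⟩, rfl⟩

end Pool.Agent.Lib.MP_0f5321_co
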