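import Pool.Agent.Lib.MP_0f5321_co.Defs

/-!
Static strategies of the breaker: if `R` is a symmetric relation on the cells in which every cell
has at most two partners, then the breaker can ensure that no two partners are ever both marked by
the maker.
-/

namespace Pool.Agent.Lib.MP_0f5321_co

theorem exists_reply (S : Set Cell) (hS : S.Finite) (c₁ c₂ : Cell) :
    ∃ p : Cell × Cell, p.1 ≠ p.2 ∧ p.1 ∉ S ∧ p.2 ∉ S ∧
      ∀ w, (w = c₁ ∨ w = c₂) → w ∈ S ∨ w = p.1 ∨ w = p.2 := by
  have hinf : ∀ T : Set Cell, T.Finite → ∃ c, c ∉ T := fun T hT => by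
    by_contra h
    push Not at h
    have : (Set.univ : Set Cell).Finite := hT.subset (fun c _ => h c)
    exact Set.infinite_univ this
  by_cases h1 : c₁ ∈ S
  · by_cases h2 : c₂ ∈ S
    · obtain ⟨a, ha⟩ := hinf S hS
      obtain ⟨b, hb⟩ := hinf (insert a S) (hS.insert a)
      refine ⟨(a, b), ?_, ha, fun h => hb (Set.mem_insert_of_mem _ h), ?_⟩
      · intro h
        exact hb (Or.inl h.symm)
      · rintro w (rfl | rfl)
        · exact Or.inl h1
        · exact Or.inl h2
    · obtain ⟨b, hb⟩ := hinf (insert c₂ S) (hS.insert c₂)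
      refine ⟨(c₂, b), ?_, h2, fun h => hb (Set.mem_insert_of_mem _ h), ?_⟩
      · intro h
        exact hb (Or.inl h.symm)
      · rintro w (rfl | rfl)
        · exact Or.inl h1
        · exact Or.inr (Or.inl rfl)
  · by_cases h2 : c₂ ∈ S ∨ c₂ = c₁
    · obtain ⟨b, hb⟩ := hinf (insert c₁ S) (hS.insert c₁)
      refine ⟨(c₁, b), ?_, h1, fun h => hb (Set.mem_insert_of_mem _ h), ?_⟩
      · intro h
        exact hb (Or.inl h.symm)
      · rintro w (rfl | rfl)
        · exact Or.inr (Or.inl rfl)
        · rcases h2 with h2 | h2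
          · exact Or.inl h2
          · exact Or.inr (Or.inl h2)
    · push Not at h2
      refine ⟨(c₁, c₂), fun h => h2.2 h.symm, h1, h2.1, ?_⟩
      rintro w (rfl | rfl)
      · exact Or.inr (Or.inl rfl)
      · exact Or.inr (Or.inr rfl)

/-- The cells marked when the breaker has made the moves in the list `L` and the maker has just
answered the last of them. -/
def marked (σ : Strategy) (L : List (Cell × Cell)) : Set Cell :=
  {c | ∃ i ≤ L.length, σ (L.take i) = c} ∪ {c | ∃ p ∈ L, p.1 = c ∨ p.2 = c}

theorem marked_finite (σ : Strategy) (L : List (Cell × Cell)) : (marked σ L).Finite := by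
  refine Set.Finite.union ?_ ?_
  · have : {c | ∃ i ≤ L.length, σ (L.take i) = c} = (fun i => σ (L.take i)) '' Set.Iic L.length := by
      ext c; simp
    rw [this]
    exact (Set.finite_Iic _).image _
  · have : {c : Cell | ∃ p ∈ L, p.1 = c ∨ p.2 = c} ⊆
        (Prod.fst '' {p | p ∈ L}) ∪ (Prod.snd '' {p | p ∈ L}) := by
      rintro c ⟨p, hp, h | h⟩
      · exact Or.inl ⟨p, hp, h⟩
      · exact Or.inr ⟨p, hp, h⟩
    refine Set.Finite.subset ?_ this
    exact ((List.finite_toSet L).image _).union ((List.finite_toSet L).image _)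

/-- The breaker's answer in a static strategy. -/
noncomputable def reply (σ : Strategy) (f g : Cell → Cell) (L : List (Cell × Cell)) :
    Cell × Cell :=
  (exists_reply (marked σ L) (marked_finite σ L) (f (σ L)) (g (σ L))).choose

theorem reply_spec (σ : Strategy) (f g : Cell → Cell) (L : List (Cell × Cell)) :
    (reply σ f g L).1 ≠ (reply σ f g L).2 ∧ (reply σ f g L).1 ∉ marked σ L ∧
    (reply σ f g L).2 ∉ marked σ L ∧
      ∀ w, (w = f (σ L) ∨ w = g (σ L)) →
        w ∈ marked σ L ∨ w = (reply σ f g L).1 ∨ w = (reply σ f g L).2 :=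
  (exists_reply (marked σ L) (marked_finite σ L) (f (σ L)) (g (σ L))).choose_spec

/-- The history of the breaker's moves. -/
noncomputable def hist (σ : Strategy) (f g : Cell → Cell) : ℕ → List (Cell × Cell)
  | 0 => []
  | t + 1 => hist σ f g t ++ [reply σ f g (hist σ f g t)]

/-- The breaker's moves. -/
noncomputable def moves (σ : Strategy) (f g : Cell → Cell) (t : ℕ) : Cell × Cell :=
  reply σ f g (hist σ f g t)

theorem map_moves (σ : Strategy) (f g : Cell → Cell) (t : ℕ) :
    (List.range t).map (moves σ f g) = hist σ f g t := by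
  induction t with
  | zero => rfl
  | succ t ih => rw [List.range_succ, List.map_append, ih]; rfl

theorem makerMove_moves (σ : Strategy) (f g : Cell → Cell) (t : ℕ) :
    makerMove σ (moves σ f g) t = σ (hist σ f g t) := by
  rw [makerMove, map_moves]

theorem hist_length (σ : Strategy) (f g : Cell → Cell) (t : ℕ) :
    (hist σ f g t).length = t := by
  rw [← map_moves]; simp

theorem hist_take (σ : Strategy) (f g : Cell → Cell) (t i : ℕ) (h : i ≤ t) :
    (hist σ f g t).take i = hist σ f g i := by
  rw [← map_moves, ← map_moves, ← List.map_take, List.take_range, min_eq_left h]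

theorem marked_hist (σ : Strategy) (f g : Cell → Cell) (t : ℕ) :
    marked σ (hist σ f g t) =
      makerCells σ (moves σ f g) (t + 1) ∪ breakerCells (moves σ f g) t := by
  unfold marked makerCells breakerCells
  congr 1
  · ext c
    simp only [Set.mem_ofPred_eq, hist_length]
    constructor
    · rintro ⟨i, hi, h⟩
      rw [hist_take σ f g t i hi] at h
      exact ⟨i, by omega, by rw [makerMove_moves]; exact h⟩
    · rintro ⟨i, hi, h⟩
      refine ⟨i, by omega, ?_⟩
      rw [hist_take σ f g t i (by omega)]
      rw [makerMove_moves] at h; exact h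
  · ext c
    simp only [Set.mem_ofPred_eq]
    rw [← map_moves]
    constructor
    · rintro ⟨p, hp, h⟩
      rw [List.mem_map] at hp
      obtain ⟨i, hi, rfl⟩ := hp
      exact ⟨i, List.mem_range.1 hi, h⟩
    · rintro ⟨i, hi, h⟩
      exact ⟨_, List.mem_map.2 ⟨i, List.mem_range.2 hi, rfl⟩, h⟩

theorem breakerLegal_moves (σ : Strategy) (f g : Cell → Cell) (t : ℕ) :
    BreakerLegal σ (moves σ f g) t := by
  have h := reply_spec σ f g (hist σ f g t)
  rw [marked_hist] at h
  exact ⟨h.1, h.2.1, h.2.2.1⟩

/-- A symmetric relation in which every cell has at most two partners gives a strategy of the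
breaker: the maker never owns two partners. -/
theorem not_winner_of_relation (F : Set Polyomino) (R : Cell → Cell → Prop)
    (hsymm : ∀ u v, R u v → R v u) (hirr : ∀ u, ¬ R u u)
    (hdeg : ∀ u, ∃ c₁ c₂ : Cell, ∀ w, R u w → w = c₁ ∨ w = c₂)
    (hF : ∀ P : Placed, P.cells.Finite → (∀ u ∈ P.cells, ∀ v ∈ P.cells, ¬ R u v) →
      shape P ∉ F) : ¬ Winner F := by
  rintro ⟨σ, hσ⟩
  choose f g hfg using hdeg
  obtain ⟨T, hT, P, hPF, hP⟩ := hσ (moves σ f g) (breakerLegal_moves σ f g)
  set b := moves σ f g with hb
  -- the maker's cells are never the breaker's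
  have inv : ∀ t ≤ T + 1, (∀ v ∈ makerCells σ b t, v ∉ breakerCells b t) ∧
      ∀ v ∈ makerCells σ b t, ∀ w, R v w → w ∈ breakerCells b t := by
    intro t
    induction t with
    | zero =>
      intro _
      refine ⟨?_, ?_⟩
      · rintro v ⟨i, hi, _⟩; omega
      · rintro v ⟨i, hi, _⟩; omega
    | succ t ih =>
      intro ht
      obtain ⟨ih1, ih2⟩ := ih (by omega)
      have hleg := hT t (by omega)
      have hspec := reply_spec σ f g (hist σ f g t)
      rw [marked_hist, ← makerMove_moves σ f g t] at hspec
      change (b t).1 ≠ (b t).2 ∧ (b t).1 ∉ makerCells σ b (t + 1) ∪ breakerCells b t ∧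
        (b t).2 ∉ makerCells σ b (t + 1) ∪ breakerCells b t ∧
        ∀ w, (w = f (makerMove σ b t) ∨ w = g (makerMove σ b t)) →
          w ∈ makerCells σ b (t + 1) ∪ breakerCells b t ∨ w = (b t).1 ∨ w = (b t).2 at hspec
      obtain ⟨_, hb1, hb2, hb3⟩ := hspec
      have hsuccB : ∀ c, c ∈ breakerCells b (t + 1) ↔
          c ∈ breakerCells b t ∨ c = (b t).1 ∨ c = (b t).2 := by
        intro c
        constructor
        · rintro ⟨i, hi, h⟩
          rcases Nat.lt_succ_iff_lt_or_eq.1 hi with h' | rfl
          · exact Or.inl ⟨i, h', h⟩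
          · rcases h with h | h
            · exact Or.inr (Or.inl h.symm)
            · exact Or.inr (Or.inr h.symm)
        · rintro (⟨i, hi, h⟩ | h | h)
          · exact ⟨i, by omega, h⟩
          · exact ⟨t, by omega, Or.inl h.symm⟩
          · exact ⟨t, by omega, Or.inr h.symm⟩
      have hsuccM : ∀ c, c ∈ makerCells σ b (t + 1) ↔
          c ∈ makerCells σ b t ∨ c = makerMove σ b t := by
        intro c
        constructor
        · rintro ⟨i, hi, h⟩
          rcases Nat.lt_succ_iff_lt_or_eq.1 hi with h' | rfl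
          · exact Or.inl ⟨i, h', h⟩
          · exact Or.inr h.symm
        · rintro (⟨i, hi, h⟩ | h)
          · exact ⟨i, by omega, h⟩
          · exact ⟨t, by omega, h.symm⟩
      have hdisj : ∀ v ∈ makerCells σ b (t + 1), v ∉ breakerCells b (t + 1) := by
        intro v hv hv'
        rw [hsuccB] at hv'
        rcases hv' with hv' | rfl | rfl
        · rw [hsuccM] at hv
          rcases hv with hv | rfl
          · exact ih1 v hv hv'
          · exact hleg (Or.inr hv')
        · exact hb1 (Or.inl hv)
        · exact hb2 (Or.inl hv)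
      refine ⟨hdisj, ?_⟩
      intro v hv w hvw
      rw [hsuccM] at hv
      rcases hv with hv | rfl
      · rw [hsuccB]; exact Or.inl (ih2 v hv w hvw)
      · rcases hb3 w (hfg _ w hvw) with (hw | hw) | hw
        · exfalso
          rw [hsuccM] at hw
          rcases hw with hw | rfl
          · have := ih2 w hw _ (hsymm _ _ hvw)
            exact hleg (Or.inr this)
          · exact hirr _ hvw
        · rw [hsuccB]; exact Or.inl hw
        · rw [hsuccB]; exact Or.inr hw
  obtain ⟨inv1, inv2⟩ := inv (T + 1) le_rfl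
  refine hF P ?_ ?_ hPF
  · refine Set.Finite.subset ?_ hP
    have : makerCells σ b (T + 1) = (makerMove σ b) '' Set.Iio (T + 1) := by
      ext c; simp [makerCells]
    rw [this]
    exact (Set.finite_Iio _).image _
  · intro u hu v hv huv
    exact inv1 v (hP hv) (inv2 u (hP hu) v huv)

end Pool.Agent.Lib.MP_0f5321_co
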