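import Pool.Agent.Lib.MP_0f5321_co.Basic
import Pool.Agent.Lib.MP_0f5321_co.Static

/-!
The strategies of the breaker given by the tiling of the plane by `2 × j` blocks: the maker only
gets parts of the polyomino `U_j`, a strip of `j` cells with one more cell at each of its ends, on
the same side.
-/

namespace Pool.Agent.Lib.MP_0f5321_co

/-- The congruence `(x, y) ↦ p + x • (c, s) + (δ * y) • (-s, c)`. -/
def frame (p : Cell) (c s δ : ℤ) (h : c ^ 2 + s ^ 2 = 1) (hδ : δ ^ 2 = 1) : Cell ≃ Cell where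
  toFun v := (p.1 + v.1 * c - δ * v.2 * s, p.2 + v.1 * s + δ * v.2 * c)
  invFun w := (c * (w.1 - p.1) + s * (w.2 - p.2), δ * (-s * (w.1 - p.1) + c * (w.2 - p.2)))
  left_inv := by
    rintro ⟨x, y⟩
    simp only [Prod.mk.injEq]
    constructor
    · linear_combination x * h
    · linear_combination y * δ ^ 2 * h + y * hδ
  right_inv := by
    rintro ⟨x, y⟩
    simp only [Prod.mk.injEq]
    constructor
    · linear_combination (x - p.1) * h + (-s * c * (y - p.2) + s ^ 2 * (x - p.1)) * hδ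
    · linear_combination (y - p.2) * h + (c ^ 2 * (y - p.2) - s * c * (x - p.1)) * hδ

theorem isCongruence_frame (p : Cell) (c s δ : ℤ) (h : c ^ 2 + s ^ 2 = 1) (hδ : δ ^ 2 = 1) :
    IsCongruence (frame p c s δ h hδ) := by
  rintro ⟨x, y⟩ ⟨z, w⟩
  simp only [frame, Equiv.coe_fn_mk]
  linear_combination ((x - z) ^ 2 + δ ^ 2 * (y - w) ^ 2) * h + (y - w) ^ 2 * hδ

/-- The polyomino `U_j`. -/
def uSet (j : ℤ) : Set Cell :=
  {c | (0 ≤ c.1 ∧ c.1 ≤ j - 1 ∧ c.2 = 0) ∨ c = (0, 1) ∨ c = (j - 1, 1)}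

/-- The relation of the strategy of the blocks. -/
def blockRel (j : ℤ) (v w : Cell) : Prop :=
  board.Adj v w ∧ (v.2 / 2 ≠ w.2 / 2 ∨ v.1 / j ≠ w.1 / j ∨
    (v.1 = w.1 ∧ 0 < v.1 % j ∧ v.1 % j < j - 1))

theorem blockRel_symm (j : ℤ) (u v : Cell) (h : blockRel j u v) : blockRel j v u := by
  obtain ⟨h1, h2⟩ := h
  refine ⟨h1.symm, ?_⟩
  rcases h2 with h2 | h2 | ⟨h2, h3, h4⟩
  · exact Or.inl h2.symm
  · exact Or.inr (Or.inl h2.symm)
  · exact Or.inr (Or.inr ⟨h2.symm, by rw [← h2]; exact h3, by rw [← h2]; exact h4⟩)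

theorem blockRel_irr (j : ℤ) (u : Cell) : ¬ blockRel j u u := fun h => h.1.ne rfl

theorem div_eq_of_mod {j x : ℤ} (hj : 2 ≤ j) (h1 : x % j ≠ j - 1) : (x + 1) / j = x / j := by
  have hj0 : 0 < j := by omega
  have h2 := Int.emod_nonneg x hj0.ne'
  have h3 := Int.emod_lt_of_pos x hj0
  have h4 := Int.mul_ediv_add_emod x j
  have : x + 1 = (x % j + 1) + j * (x / j) := by linarith
  rw [this, Int.add_mul_ediv_left _ _ hj0.ne', Int.ediv_eq_zero_of_lt (by omega) (by omega)]
  ring

theorem div_eq_of_mod' {j x : ℤ} (hj : 2 ≤ j) (h1 : x % j ≠ 0) : (x - 1) / j = x / j := by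
  have hj0 : 0 < j := by omega
  have h2 := Int.emod_nonneg x hj0.ne'
  have h3 := Int.emod_lt_of_pos x hj0
  have h4 := Int.mul_ediv_add_emod x j
  have : x - 1 = (x % j - 1) + j * (x / j) := by linarith
  rw [this, Int.add_mul_ediv_left _ _ hj0.ne', Int.ediv_eq_zero_of_lt (by omega) (by omega)]
  ring

theorem blockRel_deg (j : ℤ) (hj : 2 ≤ j) (u : Cell) :
    ∃ c₁ c₂ : Cell, ∀ w, blockRel j u w → w = c₁ ∨ w = c₂ := by
  obtain ⟨x, y⟩ := u
  refine ⟨(x, if y % 2 = 0 then y - 1 else y + 1),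
    if x % j = 0 then (x - 1, y) else if x % j = j - 1 then (x + 1, y) else
      (x, if y % 2 = 0 then y + 1 else y - 1), ?_⟩
  rintro ⟨z, w⟩ ⟨hadj, h⟩
  rcases hadj with ⟨h1, h2⟩ | ⟨h1, h2⟩
  · simp only at h1 h2 h
    subst h1
    have h2' : w = y + 1 ∨ w = y - 1 := by
      rcases (abs_eq (zero_le_one' ℤ)).1 h2 with h | h <;> omega
    by_cases hy : y % 2 = 0
    · rcases h2' with rfl | rfl
      · right
        rcases h with h | h | ⟨_, h3, h4⟩
        · exfalso; omega
        · exact absurd rfl h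
        · rw [if_neg (by omega), if_neg (by omega), if_pos hy]
      · left
        rw [if_pos hy]
    · rcases h2' with rfl | rfl
      · left
        rw [if_neg hy]
      · right
        rcases h with h | h | ⟨_, h3, h4⟩
        · exfalso; omega
        · exact absurd rfl h
        · rw [if_neg (by omega), if_neg (by omega), if_neg hy]
  · simp only at h1 h2 h
    subst h1
    have h2' : z = x + 1 ∨ z = x - 1 := by
      rcases (abs_eq (zero_le_one' ℤ)).1 h2 with h | h <;> omega
    right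
    rcases h with h | h | ⟨h, _⟩
    · exact absurd rfl h
    · rcases h2' with rfl | rfl
      · have hx : x % j = j - 1 := by
          by_contra hx
          exact h (div_eq_of_mod hj hx).symm
        rw [if_neg (by omega), if_pos hx]
      · have hx : x % j = 0 := by
          by_contra hx
          exact h (div_eq_of_mod' hj hx).symm
        rw [if_pos hx]
    · exfalso
      rcases h2' with h' | h' <;> omega

theorem subF_of_independent (F : Set Polyomino) (j : ℤ) (hj : 2 ≤ j) (P : Placed)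
    (hind : ∀ u ∈ P.cells, ∀ v ∈ P.cells, ¬ blockRel j u v) (hP : shape P ∈ F) :
    SubF F (uSet j) := by
  have hj0 : 0 < j := by omega
  obtain ⟨⟨v₀, hv₀⟩⟩ := P.connected.nonempty
  set x₀ : ℤ := j * (v₀.1 / j) with hx₀
  set y₀ : ℤ := 2 * (v₀.2 / 2) with hy₀
  have hblock : ∀ v ∈ P.cells, v.1 / j = v₀.1 / j ∧ v.2 / 2 = v₀.2 / 2 := by
    refine P.induct _ v₀ hv₀ ⟨rfl, rfl⟩ ?_
    rintro v hv w hw hadj ⟨h1, h2⟩
    have h3 := hind v hv w hw
    unfold blockRel at h3
    push Not at h3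
    obtain ⟨h4, h5⟩ : v.2 / 2 = w.2 / 2 ∧ v.1 / j = w.1 / j := by
      by_contra hcon
      rw [not_and_or] at hcon
      have := h3 hadj
      tauto
    exact ⟨by rw [← h5, h1], by rw [← h4, h2]⟩
  have H1 : ∀ v ∈ P.cells, x₀ ≤ v.1 ∧ v.1 ≤ x₀ + (j - 1) ∧ y₀ ≤ v.2 ∧ v.2 ≤ y₀ + 1 := by
    intro v hv
    obtain ⟨h1, h2⟩ := hblock v hv
    have h3 := Int.mul_ediv_add_emod v.1 j
    have h4 := Int.emod_nonneg v.1 hj0.ne'
    have h5 := Int.emod_lt_of_pos v.1 hj0
    rw [h1] at h3
    refine ⟨by omega, by omega, by omega, by omega⟩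
  have H2 : ∀ v ∈ P.cells, ∀ w ∈ P.cells, v.1 = w.1 → v.2 ≠ w.2 →
      v.1 = x₀ ∨ v.1 = x₀ + (j - 1) := by
    intro v hv w hw h1 h2
    by_contra hcon
    push Not at hcon
    have h3 := H1 v hv
    have h4 := H1 w hw
    refine hind v hv w hw ⟨Or.inl ⟨h1, ?_⟩, Or.inr (Or.inr ⟨h1, ?_⟩)⟩
    · rw [abs_eq (zero_le_one' ℤ)]; omega
    · have h5 := Int.mul_ediv_add_emod v.1 j
      rw [(hblock v hv).1] at h5
      constructor <;> omega
  -- the main claim
  have claim : ∃ y₁ : ℤ, (y₁ = y₀ ∨ y₁ = y₀ + 1) ∧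
      ∀ v ∈ P.cells, v.2 = y₁ ∨ v.1 = x₀ ∨ v.1 = x₀ + (j - 1) := by
    by_cases hmid : ∃ u ∈ P.cells, u.1 ≠ x₀ ∧ u.1 ≠ x₀ + (j - 1)
    · obtain ⟨u₀, hu₀, hu1, hu2⟩ := hmid
      have hb := H1 u₀ hu₀
      refine ⟨u₀.2, by omega, ?_⟩
      have key : ∀ v ∈ P.cells, (v.1 = x₀ → (x₀ + 1, u₀.2) ∈ P.cells) ∧
          (v.1 = x₀ + (j - 1) → (x₀ + (j - 2), u₀.2) ∈ P.cells) ∧
          (v.2 = u₀.2 ∨ v.1 = x₀ ∨ v.1 = x₀ + (j - 1)) := by
        refine P.induct _ u₀ hu₀ ⟨fun h => absurd h hu1, fun h => absurd h hu2, Or.inl rfl⟩ ?_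
        rintro ⟨x, y⟩ hv ⟨z, w⟩ hw hadj ⟨i1, i2, i3⟩
        simp only at i1 i2 i3 ⊢
        rcases hadj with ⟨h1, h2⟩ | ⟨h1, h2⟩
        · simp only at h1 h2
          subst h1
          have h3 : y ≠ w := by
            rintro rfl
            simp at h2
          have h4 := H2 _ hv _ hw rfl h3
          simp only at h4
          exact ⟨i1, i2, Or.inr h4⟩
        · simp only at h1 h2
          subst h1
          have h2' : z = x + 1 ∨ z = x - 1 := by
            rcases (abs_eq (zero_le_one' ℤ)).1 h2 with h | h <;> omega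
          have hv' := H1 _ hv
          have hw' := H1 _ hw
          simp only at hv' hw'
          refine ⟨?_, ?_, ?_⟩
          · intro hz
            have hx : x = x₀ + 1 := by omega
            have hy : y = u₀.2 := by omega
            rw [← hx, ← hy]; exact hv
          · intro hz
            have hx : x = x₀ + (j - 2) := by omega
            have hy : y = u₀.2 := by omega
            rw [← hx, ← hy]; exact hv
          · by_contra hcon
            push Not at hcon
            have hx : x = x₀ ∨ x = x₀ + (j - 1) := by omega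
            rcases hx with hx | hx
            · have h5 := i1 hx
              have hz : z = x₀ + 1 := by omega
              subst hz
              have := H2 _ hw _ h5 rfl hcon.1
              simp only at this
              omega
            · have h5 := i2 hx
              have hz : z = x₀ + (j - 2) := by omega
              subst hz
              have := H2 _ hw _ h5 rfl hcon.1
              simp only at this
              omega
      exact fun v hv => (key v hv).2.2
    · push Not at hmid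
      refine ⟨y₀, Or.inl rfl, fun v hv => ?_⟩
      by_cases h : v.1 = x₀
      · exact Or.inr (Or.inl h)
      · exact Or.inr (Or.inr (hmid v hv h))
  obtain ⟨y₁, hy₁, hcl⟩ := claim
  rcases hy₁ with rfl | rfl
  · refine ⟨P, hP, frame (-x₀, -y₀) 1 0 1 (by norm_num) (by norm_num),
      isCongruence_frame _ _ _ _ _ _, ?_⟩
    rintro _ ⟨⟨x, y⟩, hv, rfl⟩
    have h1 := H1 _ hv
    have h2 := hcl _ hv
    simp only [frame, Equiv.coe_fn_mk, uSet, Set.mem_ofPred_eq, Prod.mk.injEq] at h1 h2 ⊢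
    omega
  · refine ⟨P, hP, frame (-x₀, y₀ + 1) 1 0 (-1) (by norm_num) (by norm_num),
      isCongruence_frame _ _ _ _ _ _, ?_⟩
    rintro _ ⟨⟨x, y⟩, hv, rfl⟩
    have h1 := H1 _ hv
    have h2 := hcl _ hv
    simp only [frame, Equiv.coe_fn_mk, uSet, Set.mem_ofPred_eq, Prod.mk.injEq] at h1 h2 ⊢
    omega

/-- A winner contains a part of `U_j`, for every `j ≥ 2`. -/
theorem exists_subF (F : Set Polyomino) (hF : Winner F) (j : ℤ) (hj : 2 ≤ j) :
    SubF F (uSet j) := by
  by_contra hcon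
  refine not_winner_of_relation F (blockRel j) (blockRel_symm j) (blockRel_irr j)
    (blockRel_deg j hj) ?_ hF
  intro P _ hind hP
  exact hcon (subF_of_independent F j hj P hind hP)

end Pool.Agent.Lib.MP_0f5321_co
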