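import Mathlib

/-!
Definitions for problem MP_0f5321_co: polyominoes up to congruence, teams, and the weak set
(1,2)-achievement game of the maker (one cell per turn, moving first) and the breaker (two cells
per turn).
-/

namespace Pool.Agent.Lib.MP_0f5321_co

/-- The unit cell `[0,1]^2 + v` of the board, given by `v ∈ ℤ²`. -/
abbrev Cell : Type := ℤ × ℤ

/-- The adjacency graph of the cells: two cells are adjacent when they share an edge. -/
def board : SimpleGraph Cell where
  Adj u v := (u.1 = v.1 ∧ |u.2 - v.2| = 1) ∨ (u.2 = v.2 ∧ |u.1 - v.1| = 1)
  symm := ⟨by
    intro u v h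
    rcases h with ⟨h1, h2⟩ | ⟨h1, h2⟩
    · exact Or.inl ⟨h1.symm, by rw [abs_sub_comm]; exact h2⟩
    · exact Or.inr ⟨h1.symm, by rw [abs_sub_comm]; exact h2⟩⟩
  loopless := ⟨by
    intro u h
    rcases h with ⟨_, h2⟩ | ⟨_, h2⟩ <;> simp at h2⟩

/-- A placed polyomino: a nonempty set of cells, finite or infinite, that is connected through
adjacent cells. -/
structure Placed where
  /-- the cells of the placed polyomino -/
  cells : Set Cell
  /-- it is nonempty and connected through adjacent cells -/
  connected : (board.induce cells).Connected

/-- A congruence of the board: a bijection of the cells that preserves the Euclidean distance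
between (the centres of) any two cells, that is, a composition of translations, rotations and
reflections. -/
def IsCongruence (g : Cell ≃ Cell) : Prop :=
  ∀ u v : Cell,
    ((g u).1 - (g v).1) ^ 2 + ((g u).2 - (g v).2) ^ 2 = (u.1 - v.1) ^ 2 + (u.2 - v.2) ^ 2

/-- Two placed polyominoes are congruent when some congruence of the board maps the cells of the
first onto the cells of the second. -/
instance congruent : Setoid Placed where
  r P Q := ∃ g : Cell ≃ Cell, IsCongruence g ∧ g '' P.cells = Q.cells
  iseqv :=
    { refl := fun P => ⟨Equiv.refl _, fun _ _ => rfl, by simp⟩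
      symm := by
        rintro P Q ⟨g, hg, h⟩
        refine ⟨g.symm, fun u v => ?_, ?_⟩
        · have := hg (g.symm u) (g.symm v)
          simp only [Equiv.apply_symm_apply] at this
          exact this.symm
        · rw [← h, ← Set.image_comp]; simp
      trans := by
        rintro P Q R ⟨g, hg, h⟩ ⟨g', hg', h'⟩
        refine ⟨g.trans g', fun u v => ?_, ?_⟩
        · simp only [Equiv.trans_apply]
          rw [hg', hg]
        · rw [← h', ← h, ← Set.image_comp]; rfl }

/-- A polyomino: a placed polyomino up to congruence. -/
def Polyomino : Type := Quotient congruent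

/-- The polyomino of a placed polyomino. -/
def shape (P : Placed) : Polyomino := Quotient.mk congruent P

/-- `p` is an ancestor of `q`: `q` is obtained from a copy of `p` by adding zero or more cells. -/
def Ancestor (p q : Polyomino) : Prop :=
  ∃ P Q : Placed, shape P = p ∧ shape Q = q ∧ P.cells ⊆ Q.cells

/-- A polyomino is finite when it has finitely many cells. -/
def IsFinite (p : Polyomino) : Prop :=
  ∃ P : Placed, shape P = p ∧ P.cells.Finite

/-- A team: a set of polyominoes no element of which is an ancestor of a different element. -/
def IsTeam (F : Set Polyomino) : Prop :=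
  ∀ p ∈ F, ∀ q ∈ F, Ancestor p q → p = q

/-! ### The game -/

/-- A strategy of the maker: the cell he marks next, given the list of the pairs of cells that
the breaker has marked in his previous turns. -/
abbrev Strategy : Type := List (Cell × Cell) → Cell

/-- The cell which the maker marks in his turn `t` (turns are numbered `0, 1, 2, ...`) when he
plays the strategy `σ` and the breaker marks the pairs of cells `b 0, b 1, b 2, ...`. -/
def makerMove (σ : Strategy) (b : ℕ → Cell × Cell) (t : ℕ) : Cell :=
  σ ((List.range t).map b)

/-- The cells marked by the maker in his turns `0, ..., t - 1`. -/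
def makerCells (σ : Strategy) (b : ℕ → Cell × Cell) (t : ℕ) : Set Cell :=
  {c | ∃ i < t, makerMove σ b i = c}

/-- The cells marked by the breaker in his turns `0, ..., t - 1`. -/
def breakerCells (b : ℕ → Cell × Cell) (t : ℕ) : Set Cell :=
  {c | ∃ i < t, (b i).1 = c ∨ (b i).2 = c}

/-- The maker's turn `t` is legal: he marks a previously unmarked cell. -/
def MakerLegal (σ : Strategy) (b : ℕ → Cell × Cell) (t : ℕ) : Prop :=
  makerMove σ b t ∉ makerCells σ b t ∪ breakerCells b t

/-- The breaker's turn `t`, which follows the maker's turn `t`, is legal: he marks two different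
previously unmarked cells. -/
def BreakerLegal (σ : Strategy) (b : ℕ → Cell × Cell) (t : ℕ) : Prop :=
  (b t).1 ≠ (b t).2 ∧
    (b t).1 ∉ makerCells σ b (t + 1) ∪ breakerCells b t ∧
    (b t).2 ∉ makerCells σ b (t + 1) ∪ breakerCells b t

/-- The set of cells `M` contains a polyomino congruent to an element of `F`. -/
def Achieved (F : Set Polyomino) (M : Set Cell) : Prop :=
  ∃ P : Placed, shape P ∈ F ∧ P.cells ⊆ M

/-- `F` is a winner of the weak set (1,2)-achievement game: the maker has a strategy such that,
however the breaker plays, after some turn `T` of the maker (all his turns up to then being legal)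
the cells he has marked contain a polyomino congruent to an element of `F`. -/
def Winner (F : Set Polyomino) : Prop :=
  ∃ σ : Strategy, ∀ b : ℕ → Cell × Cell, (∀ t, BreakerLegal σ b t) →
    ∃ T, (∀ t ≤ T, MakerLegal σ b t) ∧ Achieved F (makerCells σ b (T + 1))

end Pool.Agent.Lib.MP_0f5321_co
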