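import Pool.Agent.Lib.MP_0f5321_co.Words
import Pool.Agent.Lib.MP_0f5321_co.Blocks

/-!
A winning team of finite polyominoes is finite.
-/

namespace Pool.Agent.Lib.MP_0f5321_co

theorem path_add (u : ℕ → Bool) (a i : ℕ) :
    path u (a + i) = path u a + path (fun j => u (a + j)) i := by
  induction i with
  | zero => rw [add_path_zero]; rfl
  | succ i ih => rw [← add_assoc, path, ih, path, add_assoc]

/-- The steps of a path. -/
def dir (p : ℕ → Cell) (i : ℕ) : Cell := p (i + 1) - p i

theorem dir_cases {p : ℕ → Cell} {i : ℕ} (h : board.Adj (p i) (p (i + 1))) :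
    dir p i = (1, 0) ∨ dir p i = (-1, 0) ∨ dir p i = (0, 1) ∨ dir p i = (0, -1) := by
  unfold dir
  rcases adj_cases h with ⟨e, he⟩ | ⟨e, he⟩
  · rw [he]
    cases e <;> simp [stepv]
  · have : p (i + 1) - p i = - stepv e := by rw [he]; simp
    rw [this]
    cases e <;> simp [stepv]

theorem dir_add (p : ℕ → Cell) (i : ℕ) : p (i + 1) = p i + dir p i := by
  unfold dir; simp

/-- Two unit steps that are neither equal nor opposite form a frame. -/
theorem exists_frame {a b : Cell}
    (ha : a = (1, 0) ∨ a = (-1, 0) ∨ a = (0, 1) ∨ a = (0, -1))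
    (hb : b = (1, 0) ∨ b = (-1, 0) ∨ b = (0, 1) ∨ b = (0, -1))
    (h1 : b ≠ a) (h2 : b ≠ -a) :
    ∃ δ : ℤ, δ ^ 2 = 1 ∧ b.1 ^ 2 + b.2 ^ 2 = 1 ∧ a = (-(δ * b.2), δ * b.1) := by
  rcases ha with rfl | rfl | rfl | rfl <;> rcases hb with rfl | rfl | rfl | rfl <;>
  first
  | (exfalso; exact h1 rfl)
  | (exfalso; apply h2; simp; done)
  | (refine ⟨1, by norm_num, by norm_num, ?_⟩; simp; done)
  | (refine ⟨-1, by norm_num, by norm_num, ?_⟩; simp)

theorem dir_unique {a b d : Cell}
    (ha : a = (1, 0) ∨ a = (-1, 0) ∨ a = (0, 1) ∨ a = (0, -1))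
    (hb : b = (1, 0) ∨ b = (-1, 0) ∨ b = (0, 1) ∨ b = (0, -1))
    (hd : d = (1, 0) ∨ d = (-1, 0) ∨ d = (0, 1) ∨ d = (0, -1))
    (h1 : b ≠ a) (h2 : b ≠ -a) (h3 : d ≠ a) (h4 : d ≠ -a) (h5 : d ≠ -b) : d = b := by
  rcases ha with rfl | rfl | rfl | rfl <;> rcases hb with rfl | rfl | rfl | rfl <;>
  first
  | (exfalso; exact h1 rfl)
  | (exfalso; apply h2; simp; done)
  | (rcases hd with rfl | rfl | rfl | rfl <;>
      first
      | rfl
      | (exfalso; exact h3 rfl)
      | (exfalso; apply h4; simp; done)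
      | (exfalso; apply h5; simp))

/-- The case of a path with two opposite steps. -/
theorem subF_of_opposite (F : Set Polyomino) (hU : ∀ j : ℤ, 2 ≤ j → SubF F (uSet j))
    (p : ℕ → Cell) (N : ℕ) (hadj : ∀ i < N, board.Adj (p i) (p (i + 1)))
    (hrev : ∀ i, i + 2 ≤ N → p (i + 2) ≠ p i)
    (hex : ∃ t, 0 < t ∧ ∃ i, i + t < N ∧ dir p (i + t) = -dir p i) :
    SubF F (p '' Set.Iic N) := by
  classical
  obtain ⟨ht0, i, hi, hd⟩ := Nat.find_spec hex
  have hmin := fun m (hm : m < Nat.find hex) => Nat.find_min hex hm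
  set t := Nat.find hex with ht
  have hnorev : ∀ k, k + 1 < N → dir p (k + 1) ≠ -dir p k := by
    intro k hk h
    apply hrev k (by omega)
    rw [dir_add p (k + 1), dir_add p k, h]; simp
  have ht2 : 2 ≤ t := by
    by_contra h
    have : t = 1 := by omega
    rw [this] at hd hi
    exact hnorev i (by omega) hd
  have hne1 : ∀ k, 0 < k → k < t → dir p (i + k) ≠ -dir p i := by
    intro k hk hkt h
    exact hmin k hkt ⟨hk, i, by omega, h⟩
  have hne2 : ∀ k, 0 < k → k < t → dir p (i + k) ≠ dir p i := by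
    intro k hk hkt h
    refine hmin (t - k) (by omega) ⟨by omega, i + k, by omega, ?_⟩
    rw [show i + k + (t - k) = i + t by omega, h, hd]
  set a := dir p i with ha
  set b := dir p (i + 1) with hb
  obtain ⟨δ, hδ, hb1, hab⟩ := exists_frame (dir_cases (hadj i (by omega)))
    (dir_cases (hadj (i + 1) (by omega))) (hne2 1 one_pos (by omega)) (hne1 1 one_pos (by omega))
  have hconst : ∀ k, 0 < k → k < t → dir p (i + k) = b := by
    intro k hk
    induction k with
    | zero => omega
    | succ k ih =>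
      intro hkt
      rcases Nat.eq_zero_or_pos k with rfl | hk0
      · rfl
      · have h1 := ih hk0 (by omega)
        have h2 := hnorev (i + k) (by omega)
        have h3 := hne1 (k + 1) hk hkt
        have h4 := hne2 (k + 1) hk hkt
        have h5 := dir_cases (hadj (i + (k + 1)) (by omega))
        have h6 := dir_cases (hadj (i + k) (by omega))
        have h7 := dir_cases (hadj i (by omega))
        rw [h1] at h2 h6
        rw [show i + k + 1 = i + (k + 1) by omega] at h2
        have h8 : b ≠ a := hne2 1 one_pos (by omega)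
        have h9 : b ≠ -a := hne1 1 one_pos (by omega)
        exact dir_unique h7 h6 h5 h8 h9 h4 h3 h2
  have hpos : ∀ m : ℕ, m + 1 ≤ t → p (i + 1 + m) = p (i + 1) + (m * b.1, m * b.2) := by
    intro m
    induction m with
    | zero => intro _; ext <;> simp
    | succ m ih =>
      intro hm
      have e1 : dir p (i + 1 + m) = b := by
        rw [show i + 1 + m = i + (m + 1) by omega]; exact hconst (m + 1) (by omega) (by omega)
      rw [← add_assoc, dir_add p (i + 1 + m), ih (by omega), e1]
      ext <;> simp <;> ring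
  have hfirst : p (i + 1) = p i + a := dir_add p i
  have hlast : p (i + t + 1) = p (i + t) - a := by
    rw [dir_add p (i + t), hd, sub_eq_add_neg]
  have hab' : a = (-(δ * b.2), δ * b.1) := hab
  refine (hU t (by exact_mod_cast ht2)).image
    (frame (p (i + 1)) b.1 b.2 (-δ) hb1 (by rw [neg_sq]; exact hδ))
    (isCongruence_frame _ _ _ _ _ _) ?_
  rintro _ ⟨⟨x, y⟩, hv, rfl⟩
  simp only [uSet, Set.mem_ofPred_eq, Prod.mk.injEq] at hv
  rcases hv with ⟨hx0, hx1, rfl⟩ | ⟨rfl, rfl⟩ | ⟨rfl, rfl⟩
  · refine ⟨i + 1 + x.toNat, ?_, ?_⟩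
    · simp only [Set.mem_Iic]; omega
    · rw [hpos _ (by omega)]
      have : ((x.toNat : ℕ) : ℤ) = x := Int.toNat_of_nonneg hx0
      rw [this]
      ext <;> simp [frame]
  · refine ⟨i, ?_, ?_⟩
    · simp only [Set.mem_Iic]; omega
    · have : p i = p (i + 1) - a := by rw [hfirst]; simp
      rw [this, hab']
      ext
      · simp [frame]
      · simp only [frame, Equiv.coe_fn_mk, Prod.snd_sub]; ring
  · refine ⟨i + t + 1, ?_, ?_⟩
    · simp only [Set.mem_Iic]; omega
    · rw [hlast, show i + t = i + 1 + (t - 1) by omega, hpos _ (by omega), hab']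
      have : (((t - 1 : ℕ) : ℤ)) = t - 1 := by
        rw [Nat.cast_sub (by omega)]; simp
      rw [this]
      ext <;> simp [frame] <;> ring

/-- The case of a path without two opposite steps. -/
theorem subF_of_monotone (F : Set Polyomino) (N : ℕ)
    (hN : ∀ u : ℕ → Bool, ∃ a n : ℕ, a + n ≤ N ∧ InF F (seg (fun i => u (a + i)) n))
    (p : ℕ → Cell) (hadj : ∀ i < N, board.Adj (p i) (p (i + 1)))
    (hex : ∀ i j, i < j → j < N → dir p j ≠ -dir p i) :
    SubF F (p '' Set.Iic N) := by
  classical
  -- the two directions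
  obtain ⟨a, b, ha, hb, h1, h2, h3⟩ : ∃ a b : Cell,
      (a = (1, 0) ∨ a = (-1, 0) ∨ a = (0, 1) ∨ a = (0, -1)) ∧
      (b = (1, 0) ∨ b = (-1, 0) ∨ b = (0, 1) ∨ b = (0, -1)) ∧ b ≠ a ∧ b ≠ -a ∧
      ∀ i < N, dir p i = a ∨ dir p i = b := by
    rcases Nat.eq_zero_or_pos N with rfl | hN0
    · exact ⟨(1, 0), (0, 1), by simp, by simp, by simp, by simp, fun i hi => by omega⟩
    · have hsym : ∀ i j, i < N → j < N → dir p i ≠ -dir p j := by
        intro i j hi hj h
        rcases lt_trichotomy i j with hij | rfl | hij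
        · exact hex i j hij hj (by rw [h]; simp)
        · have := dir_cases (hadj i hi)
          rcases this with h' | h' | h' | h' <;> rw [h'] at h <;> simp at h
        · exact hex j i hij hi h
      by_cases hk : ∃ k < N, dir p k ≠ dir p 0
      · obtain ⟨k, hk, hkne⟩ := hk
        refine ⟨dir p 0, dir p k, dir_cases (hadj 0 hN0), dir_cases (hadj k hk), hkne,
          hsym k 0 hk hN0, ?_⟩
        intro i hi
        have c1 := dir_cases (hadj i hi)
        have c2 := dir_cases (hadj k hk)
        have c3 := dir_cases (hadj 0 hN0)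
        have n1 := hsym i 0 hi hN0
        have n2 := hsym i k hi hk
        have n3 := hsym k 0 hk hN0
        by_cases hd0 : dir p i = dir p 0
        · exact Or.inl hd0
        · exact Or.inr (dir_unique c3 c2 c1 hkne n3 hd0 n1 n2)
      · push Not at hk
        have c := dir_cases (hadj 0 hN0)
        refine ⟨dir p 0, (-(dir p 0).2, (dir p 0).1), c, ?_, ?_, ?_, fun i hi => Or.inl (hk i hi)⟩
        all_goals rcases c with h | h | h | h <;> simp [h]
  obtain ⟨δ, hδ, hb1, hab⟩ := exists_frame ha hb h1 h2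
  set u : ℕ → Bool := fun i => decide (dir p i = b) with hu
  have hp : ∀ i ≤ N, p i = frame (p 0) b.1 b.2 δ hb1 hδ (path u i) := by
    intro i hi
    induction i with
    | zero => ext <;> simp [frame, path]
    | succ i ih =>
      rw [dir_add p i, ih (by omega), path]
      rcases h3 i (by omega) with h | h
      · have : u i = false := by
          simp only [hu]; rw [h]; exact decide_eq_false (fun h' => h1 h'.symm)
        rw [h, this, hab]
        ext <;> simp [frame, stepv] <;> ring
      · have : u i = true := by simp only [hu]; rw [h]; exact decide_eq_true rfl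
        rw [h, this]
        ext <;> simp [frame, stepv] <;> ring
  obtain ⟨s, n, hsn, hin⟩ := hN u
  refine hin.subF.image ((Equiv.addLeft (path u s)).trans (frame (p 0) b.1 b.2 δ hb1 hδ))
    ((isCongruence_addLeft _).trans (isCongruence_frame _ _ _ _ _ _)) ?_
  rintro _ ⟨_, ⟨i, hi, rfl⟩, rfl⟩
  refine ⟨s + i, ?_, ?_⟩
  · simp only [Set.mem_Iic]; omega
  · rw [hp _ (by omega), path_add]
    rfl

/-- Every path of `N` steps contains a copy of an element of the winner. -/
theorem subF_path (F : Set Polyomino) (hU : ∀ j : ℤ, 2 ≤ j → SubF F (uSet j)) (N : ℕ)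
    (hN : ∀ u : ℕ → Bool, ∃ a n : ℕ, a + n ≤ N ∧ InF F (seg (fun i => u (a + i)) n))
    (p : ℕ → Cell) (hadj : ∀ i < N, board.Adj (p i) (p (i + 1)))
    (hrev : ∀ i, i + 2 ≤ N → p (i + 2) ≠ p i) :
    SubF F (p '' Set.Iic N) := by
  by_cases hex : ∃ t, 0 < t ∧ ∃ i, i + t < N ∧ dir p (i + t) = -dir p i
  · exact subF_of_opposite F hU p N hadj hrev hex
  · push Not at hex
    refine subF_of_monotone F N hN p hadj ?_
    intro i j hij hj
    have := hex (j - i) (by omega) i (by omega)
    rwa [show i + (j - i) = j by omega] at this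

theorem walk_length {S : Set Cell} {u v : S} (w : (board.induce S).Walk u v) :
    |u.1.1 - v.1.1| ≤ w.length ∧ |u.1.2 - v.1.2| ≤ w.length := by
  induction w with
  | nil => simp
  | @cons a b c h w ih =>
    have h' : board.Adj a.1 b.1 := by simpa using h
    rw [SimpleGraph.Walk.length_cons]
    push_cast
    have h1 : |a.1.1 - c.1.1| ≤ |a.1.1 - b.1.1| + |b.1.1 - c.1.1| := abs_sub_le _ _ _
    have h2 : |a.1.2 - c.1.2| ≤ |a.1.2 - b.1.2| + |b.1.2 - c.1.2| := abs_sub_le _ _ _
    rcases h' with ⟨h3, h4⟩ | ⟨h3, h4⟩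
    · rw [h3, sub_self, abs_zero] at h1
      rw [h4] at h2
      rw [h3]
      constructor <;> linarith [ih.1, ih.2]
    · rw [h3, sub_self, abs_zero] at h2
      rw [h4] at h1
      rw [h3]
      constructor <;> linarith [ih.1, ih.2]

/-- The elements of a winning team of finite polyominoes have a bounded size. -/
theorem bounded_of_team (F : Set Polyomino) (hteam : IsTeam F)
    (hU : ∀ j : ℤ, 2 ≤ j → SubF F (uSet j)) (N : ℕ)
    (hN : ∀ u : ℕ → Bool, ∃ a n : ℕ, a + n ≤ N ∧ InF F (seg (fun i => u (a + i)) n))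
    (P : Placed) (hfin : P.cells.Finite) (hP : shape P ∈ F) (u v : Cell) (hu : u ∈ P.cells)
    (hv : v ∈ P.cells) : |u.1 - v.1| ≤ N ∧ |u.2 - v.2| ≤ N := by
  classical
  by_contra hcon
  obtain ⟨w⟩ := P.connected.preconnected ⟨u, hu⟩ ⟨v, hv⟩
  set q := w.toPath with hq
  have hlen := walk_length q.1
  have hL : N + 1 ≤ q.1.length := by
    by_contra h
    apply hcon
    have : (q.1.length : ℤ) ≤ N := by exact_mod_cast (by omega : q.1.length ≤ N)
    exact ⟨le_trans hlen.1 this, le_trans hlen.2 this⟩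
  set p : ℕ → Cell := fun i => (q.1.getVert i).1 with hp
  have hpm : ∀ i, p i ∈ P.cells := fun i => (q.1.getVert i).2
  have hinj : Set.InjOn p {i | i ≤ q.1.length} := by
    intro i hi j hj hij
    exact q.2.getVert_injOn hi hj (Subtype.ext hij)
  have hadj : ∀ i < N, board.Adj (p i) (p (i + 1)) := by
    intro i hi
    have := q.1.adj_getVert_succ (i := i) (by omega)
    simpa using this
  obtain ⟨G, hG, g, hg, hsub⟩ := subF_path F hU N hN p hadj (fun i hi h => by
    have : i + 2 = i := hinj (by simp only [Set.mem_ofPred_eq]; omega)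
      (by simp only [Set.mem_ofPred_eq]; omega) h
    omega)
  have hanc : Ancestor (shape G) (shape P) := by
    refine ⟨G.map g hg, P, shape_map _ _ _, rfl, ?_⟩
    refine subset_trans hsub ?_
    rintro _ ⟨i, _, rfl⟩
    exact hpm i
  have heq := hteam _ hG _ hP hanc
  obtain ⟨g', _, hg'⟩ : ∃ g' : Cell ≃ Cell, IsCongruence g' ∧ g' '' G.cells = P.cells :=
    Quotient.exact heq
  have hGfin : G.cells.Finite := by
    have : (g' '' G.cells).Finite := by rw [hg']; exact hfin
    exact this.of_finite_image g'.injective.injOn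
  have c1 : P.cells.ncard = G.cells.ncard := by
    rw [← hg', Set.ncard_image_of_injective _ g'.injective]
  have c2 : G.cells.ncard ≤ N + 1 := by
    rw [← Set.ncard_image_of_injective _ g.injective]
    refine le_trans (Set.ncard_le_ncard hsub ((Set.finite_Iic N).image p)) ?_
    refine le_trans (Set.ncard_image_le (Set.finite_Iic N)) ?_
    rw [Set.ncard_eq_toFinset_card']; simp
  have c3 : N + 2 ≤ P.cells.ncard := by
    have h1 : (p '' Set.Iic (N + 1)).ncard = N + 2 := by
      rw [Set.InjOn.ncard_image]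
      · rw [Set.ncard_eq_toFinset_card']; simp
      · refine hinj.mono ?_
        intro i hi
        simp only [Set.mem_Iic, Set.mem_ofPred_eq] at hi ⊢
        omega
    rw [← h1]
    refine Set.ncard_le_ncard ?_ hfin
    rintro _ ⟨i, _, rfl⟩
    exact hpm i
  omega

/-- A winning team of finite polyominoes is finite. -/
theorem finite_of_winner (F : Set Polyomino) (hfin : ∀ p ∈ F, IsFinite p) (hteam : IsTeam F)
    (hwin : Winner F) : F.Finite := by
  obtain ⟨N, hN⟩ := exists_bound F hwin
  have hU := fun j hj => exists_subF F hwin j hj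
  set box : Set Cell := Set.Icc (-(N : ℤ)) N ×ˢ Set.Icc (-(N : ℤ)) N with hbox
  have hboxfin : box.Finite := (Set.finite_Icc _ _).prod (Set.finite_Icc _ _)
  have hinj : Function.Injective Placed.cells := by
    rintro ⟨C, hC⟩ ⟨D, hD⟩ h
    simp only at h
    subst h
    rfl
  have h1 : {P : Placed | P.cells ⊆ box}.Finite :=
    Set.Finite.preimage hinj.injOn hboxfin.finite_subsets
  refine (h1.image shape).subset ?_
  intro p hp
  obtain ⟨P, rfl, hPfin⟩ := hfin p hp
  obtain ⟨⟨u, hu⟩⟩ := P.connected.nonempty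
  refine ⟨P.map (Equiv.addLeft (-u)) (isCongruence_addLeft _), ?_, shape_map _ _ _⟩
  rintro _ ⟨v, hv, rfl⟩
  have := bounded_of_team F hteam hU N hN P hPfin hp v u hv hu
  simp only [abs_le] at this
  simp only [hbox, Equiv.coe_addLeft, Set.mem_prod, Set.mem_Icc, Prod.fst_add, Prod.snd_add,
    Prod.fst_neg, Prod.snd_neg]
  omega

end Pool.Agent.Lib.MP_0f5321_co
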