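import Pool.Agent.Lib.MP_0f5321_co.Basic

/-!
Sanity checks of the definitions (not used in the proof): the ancestor relation in terms of
congruences, and a winner.
-/

namespace Pool.Agent.Lib.MP_0f5321_co

/-- `P ⊑ Q` for placed polyominoes: a congruent copy of `P` is contained in `Q`. -/
theorem ancestor_iff (P Q : Placed) :
    Ancestor (shape P) (shape Q) ↔
      ∃ g : Cell ≃ Cell, IsCongruence g ∧ g '' P.cells ⊆ Q.cells := by
  constructor
  · rintro ⟨P', Q', h1, h2, h3⟩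
    obtain ⟨g, hg, hgP⟩ : ∃ g : Cell ≃ Cell, IsCongruence g ∧ g '' P.cells = P'.cells :=
      Quotient.exact h1.symm
    obtain ⟨g', hg', hgQ⟩ : ∃ g : Cell ≃ Cell, IsCongruence g ∧ g '' Q'.cells = Q.cells :=
      Quotient.exact h2
    refine ⟨g.trans g', hg.trans hg', ?_⟩
    rw [← hgQ]
    rintro _ ⟨x, hx, rfl⟩
    exact ⟨g x, h3 (hgP ▸ ⟨x, hx, rfl⟩), rfl⟩
  · rintro ⟨g, hg, h⟩
    exact ⟨P.map g hg, Q, shape_map _ _ _, rfl, h⟩

/-- The single cell. -/
def mono : Placed where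
  cells := {(0, 0)}
  connected := by
    have : Nonempty ({(0, 0)} : Set Cell) := ⟨⟨(0, 0), rfl⟩⟩
    refine ⟨?_⟩
    rintro ⟨u, hu⟩ ⟨v, hv⟩
    obtain rfl : u = (0, 0) := hu
    obtain rfl : v = (0, 0) := hv
    exact SimpleGraph.Reachable.refl _

/-- The team whose only element is the single cell is a winner. -/
theorem winner_mono : Winner {shape mono} := by
  refine ⟨fun _ => (0, 0), fun b _ => ⟨0, ?_, mono, rfl, ?_⟩⟩
  · intro t ht
    obtain rfl : t = 0 := by omega
    rintro (⟨i, hi, _⟩ | ⟨i, hi, _⟩) <;> omega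
  · rintro c hc
    obtain rfl : c = (0, 0) := hc
    exact ⟨0, by omega, rfl⟩

end Pool.Agent.Lib.MP_0f5321_co
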