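import Pool.Agent.Lib.MP_0f5321_co.Basic
import Pool.Agent.Lib.MP_0f5321_co.Static

/-!
The strategies of the breaker given by two-sided infinite words over `{E, N}`: the plane is cut
into translates of the monotone path described by the word.
-/

namespace Pool.Agent.Lib.MP_0f5321_co

/-- One step east or north. -/
def stepv (e : Bool) : Cell := if e then (1, 0) else (0, 1)

/-- The path described by a word. -/
def path (u : ℕ → Bool) : ℕ → Cell
  | 0 => (0, 0)
  | i + 1 => path u i + stepv (u i)

theorem add_path_zero (v : Cell) (u : ℕ → Bool) : v + path u 0 = v := by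
  show (v.1 + 0, v.2 + 0) = v
  simp

/-- The cells of the first `n` steps of the path. -/
def seg (u : ℕ → Bool) (n : ℕ) : Set Cell := {c | ∃ i ≤ n, path u i = c}

/-- The index of a cell. -/
def idx (v : Cell) : ℤ := v.1 + v.2

theorem idx_add (v w : Cell) : idx (v + w) = idx v + idx w := by
  simp only [idx, Prod.fst_add, Prod.snd_add]; ring

theorem idx_stepv (e : Bool) : idx (stepv e) = 1 := by
  cases e <;> simp [idx, stepv]

theorem idx_path (u : ℕ → Bool) (i : ℕ) : idx (path u i) = i := by
  induction i with
  | zero => simp [path, idx]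
  | succ i ih => rw [path, idx_add, ih, idx_stepv]; push_cast; ring

/-- A step to an adjacent cell that raises the index. -/
theorem adj_cases {v w : Cell} (h : board.Adj v w) :
    (∃ e, w = v + stepv e) ∨ (∃ e, v = w + stepv e) := by
  obtain ⟨a, b⟩ := v
  obtain ⟨c, d⟩ := w
  rcases h with ⟨h1, h2⟩ | ⟨h1, h2⟩
  · simp only at h1 h2
    rcases (abs_eq (zero_le_one' ℤ)).1 h2 with h | h
    · right; exact ⟨false, by simp [stepv, h1]; omega⟩
    · left; exact ⟨false, by simp [stepv, h1]; omega⟩
  · simp only at h1 h2
    rcases (abs_eq (zero_le_one' ℤ)).1 h2 with h | h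
    · right; exact ⟨true, by simp [stepv, h1]; omega⟩
    · left; exact ⟨true, by simp [stepv, h1]; omega⟩

/-- The relation of the strategy: the step out of `v` which the word does not take. -/
def wordRel (s : ℤ → Bool) (v w : Cell) : Prop :=
  w = v + stepv (!(s (idx v))) ∨ v = w + stepv (!(s (idx w)))

theorem wordRel_symm (s : ℤ → Bool) (u v : Cell) (h : wordRel s u v) : wordRel s v u :=
  h.symm

theorem wordRel_irr (s : ℤ → Bool) (u : Cell) : ¬ wordRel s u u := by
  rintro (h | h) <;>
  · have := congrArg idx h
    rw [idx_add, idx_stepv] at this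
    omega

theorem wordRel_deg (s : ℤ → Bool) (u : Cell) :
    ∃ c₁ c₂ : Cell, ∀ w, wordRel s u w → w = c₁ ∨ w = c₂ := by
  refine ⟨u + stepv (!(s (idx u))), u - stepv (!(s (idx u - 1))), ?_⟩
  rintro w (h | h)
  · exact Or.inl h
  · right
    have : idx w = idx u - 1 := by
      rw [h, idx_add, idx_stepv]; ring
    rw [← this, eq_sub_iff_add_eq]
    exact h.symm

theorem inF_of_independent (F : Set Polyomino) (s : ℤ → Bool) (P : Placed)
    (hfin : P.cells.Finite) (hind : ∀ u ∈ P.cells, ∀ v ∈ P.cells, ¬ wordRel s u v)
    (hP : shape P ∈ F) : ∃ (a : ℤ) (n : ℕ), InF F (seg (fun i => s (a + i)) n) := by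
  have hne : P.cells.Nonempty := by
    obtain ⟨⟨x, hx⟩⟩ := P.connected.nonempty
    exact ⟨x, hx⟩
  obtain ⟨v₀, hv₀, hmin⟩ := Set.exists_min_image P.cells idx hfin hne
  set u : ℕ → Bool := fun i => s (idx v₀ + i) with hu
  have step : ∀ e : Bool, ∀ v ∈ P.cells, v + stepv e ∈ P.cells → e = s (idx v) := by
    intro e v hv hv'
    by_contra h
    have he : e = !(s (idx v)) := by
      cases e <;> cases hs : s (idx v) <;> simp_all
    exact hind v hv _ hv' (Or.inl (by rw [he]))
  have key : ∀ v ∈ P.cells, ∃ i : ℕ, v = v₀ + path u i ∧ ∀ j ≤ i, v₀ + path u j ∈ P.cells := by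
    refine P.induct _ v₀ hv₀ ⟨0, ?_, ?_⟩ ?_
    · rw [add_path_zero]
    · intro j hj
      obtain rfl : j = 0 := by omega
      rw [add_path_zero]; exact hv₀
    · rintro v hv w hw hadj ⟨i, rfl, hi⟩
      have hidx : idx (v₀ + path u i) = idx v₀ + i := by rw [idx_add, idx_path]
      rcases adj_cases hadj with ⟨e, he⟩ | ⟨e, he⟩
      · have h1 := step e _ hv (he ▸ hw)
        rw [hidx] at h1
        refine ⟨i + 1, ?_, ?_⟩
        · rw [he, h1, path, add_assoc]
        · intro j hj
          rcases Nat.lt_or_ge j (i + 1) with h | h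
          · exact hi j (by omega)
          · obtain rfl : j = i + 1 := by omega
            have : v₀ + path u (i + 1) = w := by rw [he, h1, path, add_assoc]
            rw [this]; exact hw
      · have hidx' : idx w + 1 = idx v₀ + i := by
          rw [← hidx, he, idx_add, idx_stepv]
        have h2 := hmin w hw
        obtain ⟨k, rfl⟩ : ∃ k, i = k + 1 := ⟨i - 1, by omega⟩
        have h3 : s (idx w) = u k := by
          rw [hu]
          simp only
          congr 1
          push_cast at hidx'
          omega
        have h4 := step e w hw (he ▸ hv)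
        refine ⟨k, ?_, fun j hj => hi j (by omega)⟩
        have : w + stepv e = (v₀ + path u k) + stepv (u k) := by
          rw [← he, path, add_assoc]
        rw [h4, h3] at this
        exact add_right_cancel this
  -- the set of indices
  have hinj : Function.Injective (fun i : ℕ => v₀ + path u i) := by
    intro i j hij
    have := congrArg idx hij
    simp only [idx_add, idx_path] at this
    omega
  have hA : {i : ℕ | v₀ + path u i ∈ P.cells}.Finite :=
    Set.Finite.preimage hinj.injOn hfin
  have hA0 : {i : ℕ | v₀ + path u i ∈ P.cells}.Nonempty := ⟨0, by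
    show v₀ + path u 0 ∈ P.cells
    rw [add_path_zero]; exact hv₀⟩
  obtain ⟨n, hn, hmax⟩ := Set.exists_max_image _ id hA hA0
  refine ⟨idx v₀, n, P, hP, Equiv.addLeft (-v₀), isCongruence_addLeft _, ?_⟩
  ext c
  constructor
  · rintro ⟨v, hv, rfl⟩
    obtain ⟨i, rfl, hi⟩ := key v hv
    refine ⟨i, hmax i (hi i le_rfl), ?_⟩
    simp [hu]
  · rintro ⟨i, hi, rfl⟩
    refine ⟨v₀ + path u i, ?_, by simp [hu]⟩
    obtain ⟨m, hm, hm'⟩ := key _ hn
    have : m = n := by
      have := congrArg idx hm
      simp only [idx_add, idx_path] at this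
      omega
    exact hm' i (by omega)

/-- Every two-sided infinite word has a factor whose polyomino belongs to the winner. -/
theorem exists_factor (F : Set Polyomino) (hF : Winner F) (s : ℤ → Bool) :
    ∃ (a : ℤ) (n : ℕ), InF F (seg (fun i => s (a + i)) n) := by
  by_contra hcon
  refine not_winner_of_relation F (wordRel s) (wordRel_symm s) (wordRel_irr s) (wordRel_deg s)
    ?_ hF
  intro P hfin hind hP
  exact hcon (inF_of_independent F s P hfin hind hP)

theorem path_congr {u u' : ℕ → Bool} {n : ℕ} (h : ∀ i < n, u i = u' i) :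
    ∀ i ≤ n, path u i = path u' i := by
  intro i hi
  induction i with
  | zero => rfl
  | succ i ih => rw [path, path, ih (by omega), h i (by omega)]

theorem seg_congr {u u' : ℕ → Bool} {n : ℕ} (h : ∀ i < n, u i = u' i) : seg u n = seg u' n := by
  ext c
  constructor
  · rintro ⟨i, hi, rfl⟩
    exact ⟨i, hi, (path_congr h i hi).symm⟩
  · rintro ⟨i, hi, rfl⟩
    exact ⟨i, hi, path_congr h i hi⟩

/-- Compactness: there is a length `N` such that every word of length `N` has a factor whose
polyomino belongs to the winner. -/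
theorem exists_bound (F : Set Polyomino) (hF : Winner F) :
    ∃ N : ℕ, ∀ u : ℕ → Bool, ∃ a n : ℕ, a + n ≤ N ∧ InF F (seg (fun i => u (a + i)) n) := by
  by_contra hcon
  push Not at hcon
  choose w hw using hcon
  -- `w (2 * m)` shifted by `m`
  let w' : ℕ → ℤ → Bool := fun m i => w (2 * m) (i + m).toNat
  classical
  let U : Ultrafilter ℕ := Filter.hyperfilter ℕ
  let s : ℤ → Bool := fun i => decide (∀ᶠ m in (U : Filter ℕ), w' m i = true)
  have hs : ∀ i, ∀ᶠ m in (U : Filter ℕ), w' m i = s i := by
    intro i
    by_cases h : ∀ᶠ m in (U : Filter ℕ), w' m i = true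
    · have : s i = true := by simp only [s]; exact decide_eq_true h
      rw [this]; exact h
    · have h1 : s i = false := by simp only [s]; exact decide_eq_false h
      rw [h1]
      have h2 := Ultrafilter.eventually_not.2 h
      filter_upwards [h2] with m hm
      simpa using hm
  obtain ⟨a, n, han⟩ := exists_factor F hF s
  have h1 : ∀ᶠ m in (U : Filter ℕ), ∀ i ∈ Finset.range n, w' m (a + i) = s (a + i) := by
    rw [Filter.eventually_all_finset]
    intro i _
    exact hs _
  have h2 : ∀ᶠ m in (U : Filter ℕ), (a.natAbs + n : ℕ) ≤ m := by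
    have h3 : (U : Filter ℕ) ≤ Filter.atTop := by
      rw [← Nat.cofinite_eq_atTop]; exact Filter.hyperfilter_le_cofinite
    exact h3 (Filter.eventually_ge_atTop _)
  obtain ⟨m, hm1, hm2⟩ := (h1.and h2).exists
  have hseg : seg (fun i => s (a + i)) n = seg (fun i => w (2 * m) ((a + m).toNat + i)) n := by
    apply seg_congr
    intro i hi
    rw [← hm1 i (Finset.mem_range.2 hi)]
    simp only [w']
    congr 1
    omega
  rw [hseg] at han
  exact hw (2 * m) (a + m).toNat n (by omega) han

end Pool.Agent.Lib.MP_0f5321_co
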